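import Mathlib
import Pool.Agent.H18.QT.Gen
import Pool.Agent.H35.QT.Mul

/-!
# [H92 QT Wbq] quadratic characters modulo a prime have small complete sums
-/

set_option autoImplicit false

namespace Pool.Agent.H92.QT

open Finset Pool.H2.EL Pool.Agent.H18.QT

theorem char_eq {p : ℕ} [Fact p.Prime] (hp : 64 ≤ p) (χ : DirichletCharacter ℂ p)
    (h1 : χ ≠ 1) (h2 : χ ^ 2 = 1) (y : ZMod p) :
    χ y = ((quadraticChar (ZMod p) y : ℤ) : ℂ) := by
  classical
  have hp2 : ringChar (ZMod p) ≠ 2 := by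
    rw [ZMod.ringChar_zmod_n]
    omega
  rcases eq_or_ne y 0 with hy | hy
  · subst hy
    rw [MulChar.map_zero, MulChar.map_zero]
    simp
  · have hsq : ∀ z : ZMod p, z ≠ 0 → χ z ^ 2 = 1 := by
      intro z hz
      have h := congrArg (fun ψ : DirichletCharacter ℂ p => ψ z) h2
      simp only [MulChar.pow_apply' χ two_ne_zero] at h
      rw [h, MulChar.one_apply (Ne.isUnit hz)]
    have hs1 : ∀ z : ZMod p, z ≠ 0 → quadraticChar (ZMod p) z = 1 → χ z = 1 := by
      intro z hz hq
      obtain ⟨w, hw⟩ := (quadraticChar_one_iff_isSquare hz).1 hq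
      have hw0 : w ≠ 0 := by
        rintro rfl
        exact hz (by rw [hw, mul_zero])
      rw [hw, map_mul, ← pow_two]
      exact hsq w hw0
    rcases quadraticChar_dichotomy hy with h | h
    · rw [hs1 y hy h, h]; simp
    · obtain ⟨a, ha⟩ := MulChar.ne_one_iff.1 h1
      have ha0 : (a : ZMod p) ≠ 0 := a.ne_zero
      have ha1 : χ (a : ZMod p) = -1 := by
        rcases sq_eq_one_iff.1 (hsq _ ha0) with h' | h'
        · exact absurd h' ha
        · exact h'
      have haq : quadraticChar (ZMod p) (a : ZMod p) = -1 := by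
        rcases quadraticChar_dichotomy ha0 with h' | h'
        · exact absurd (hs1 _ ha0 h') ha
        · exact h'
      have hya : χ (y * a) = 1 := by
        refine hs1 _ (mul_ne_zero hy ha0) ?_
        rw [map_mul, h, haq]; norm_num
      rw [map_mul, ha1] at hya
      have : χ y = -1 := by linear_combination -hya
      rw [this, h]; simp

theorem wb_quad {p : ℕ} [Fact p.Prime] {R : ℕ} (hp : 64 * (R + 1) ^ 2 ≤ p) (χ : DirichletCharacter ℂ p)
    (h1 : χ ≠ 1) (h2 : χ ^ 2 = 1) : WB χ R (22 * (R + 1) * √(p : ℝ)) := by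
  classical
  intro ι _ ρ c hc hj
  obtain ⟨j0, hj0⟩ := hj
  have h64 : 64 ≤ p := by
    refine le_trans ?_ hp
    nlinarith [Nat.one_le_pow 2 (R + 1) (Nat.succ_pos R)]
  have e1 : (∑ s : ZMod p, ∏ j, cj (c j) (χ (s - ρ j))) =
      (((∑ s : ZMod p, ∏ i, quadraticChar (ZMod p) (s - ρ i) : ℤ) : ℤ) : ℂ) := by
    rw [Int.cast_sum]
    refine sum_congr rfl fun s _ => ?_
    rw [Int.cast_prod]
    refine prod_congr rfl fun j _ => ?_
    rw [char_eq h64 χ h1 h2]
    unfold cj
    split_ifs
    · rfl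
    · exact map_intCast (starRingEnd ℂ) _
  rw [e1, Complex.norm_intCast]
  have h := Pool.Agent.H35.QT.mult_sum hp hc ρ (ρ j0) (by
    have : (univ.filter fun i => ρ i = ρ j0) = {j0} := by
      ext i
      rw [mem_filter, mem_singleton]
      exact ⟨fun h => hj0 i h.2, fun h => ⟨mem_univ _, by rw [h]⟩⟩
    rw [this, card_singleton]
    exact odd_one)
  refine h.trans ?_
  have hs : 1 ≤ √(p : ℝ) := by
    rw [Real.one_le_sqrt]
    have : (64 : ℝ) ≤ p := by exact_mod_cast h64
    linarith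
  have hR : (0 : ℝ) ≤ R := Nat.cast_nonneg R
  nlinarith

theorem quad_ne {p : ℕ} [Fact p.Prime] (hp : p ≠ 2) :
    (quadraticChar (ZMod p)).ringHomComp (Int.castRingHom ℂ) ≠ 1 := by
  classical
  have hp2 : ringChar (ZMod p) ≠ 2 := by
    rw [ZMod.ringChar_zmod_n]
    exact hp
  obtain ⟨a, ha⟩ := quadraticChar_exists_neg_one' hp2
  intro h
  have h' := congrArg (fun ψ : MulChar (ZMod p) ℂ => ψ (a : ZMod p)) h
  simp only [MulChar.ringHomComp_apply, ha, MulChar.one_apply a.isUnit] at h'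
  norm_num at h'

theorem quad_sq {p : ℕ} [Fact p.Prime] :
    ((quadraticChar (ZMod p)).ringHomComp (Int.castRingHom ℂ)) ^ 2 = 1 := by
  classical
  ext a
  rw [MulChar.pow_apply' _ two_ne_zero, MulChar.ringHomComp_apply, MulChar.one_apply a.isUnit]
  rcases quadraticChar_dichotomy a.ne_zero with h | h <;> rw [h] <;> norm_num

end Pool.Agent.H92.QT
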